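import Pool.Agent.Q277.DC.Nine

/-!
# MP_dc1de5_nt: all four items

`s(n) = n^{-2} ∑_{k<n} (2k+1) (-1)^k A_k(1/4)`, `t(n) = n^{-2} ∑_{k<n} (2k+1) (-1)^k D_k(-1/4)^3`.
We prove the denominators, the residues of the numerator of `s(n)` modulo `12`, the congruences modulo `p`
at `n = p^a` for every odd prime `p`, and the congruences modulo `9` and `3^5` at `n = 3^a`.

Main ingredients: `∑_{k<n} (2k+1) (-1)^k A_k(1/4) = (-1)^n n ∑_{i,j} |i-j| u_n(i) u_{n-1}(j)` with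
`u_m(i) = C(m,i) C(m+i,i) (-1/2)^i`; an identity for that double sum obtained from a polynomial identity for the
generating polynomials; and `t(n) = (-1)^n 4 P_n P_{n-1} (P_n - P_{n-1})` with `P_m = D_m(-1/4)`.
-/

set_option autoImplicit false

namespace Pool.Agent.Results.MP_dc1de5_nt.AllItems

open Finset

/-- The Apéry polynomial `A_n(x) = ∑_{k=0}^n C(n,k)^2 C(n+k,k)^2 x^k`. -/
noncomputable def A (n : ℕ) (x : ℚ) : ℚ :=
  ∑ k ∈ range (n + 1), (n.choose k : ℚ) ^ 2 * ((n + k).choose k : ℚ) ^ 2 * x ^ k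

/-- `D_n(x) = ∑_{k=0}^n C(n,k) C(n+k,k) x^k`. -/
noncomputable def D (n : ℕ) (x : ℚ) : ℚ :=
  ∑ k ∈ range (n + 1), (n.choose k : ℚ) * ((n + k).choose k : ℚ) * x ^ k

/-- `s(n) = (1/n^2) ∑_{k=0}^{n-1} (2k+1) (-1)^k A_k(1/4)`. -/
noncomputable def s (n : ℕ) : ℚ :=
  1 / (n : ℚ) ^ 2 * ∑ k ∈ range n, (2 * (k : ℚ) + 1) * (-1) ^ k * A k (1 / 4)

/-- `t(n) = (1/n^2) ∑_{k=0}^{n-1} (2k+1) (-1)^k D_k(-1/4)^3`. -/
noncomputable def t (n : ℕ) : ℚ :=
  1 / (n : ℚ) ^ 2 * ∑ k ∈ range n, (2 * (k : ℚ) + 1) * (-1) ^ k * D k (-1 / 4) ^ 3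

/-- `r ≡ c (mod p^m)` in `ℤ_(p)`: the denominator of `r` is prime to `p` and `p^m` divides the (reduced)
numerator of `r - c`. -/
def Cong (p m : ℕ) (r : ℚ) (c : ℤ) : Prop := ¬ p ∣ r.den ∧ (p : ℤ) ^ m ∣ (r - c).num

theorem cong_of {p m : ℕ} [Fact p.Prime] {r : ℚ} {c : ℤ} (h0 : Pool.Agent.H434R2.PO p 0 r)
    (h : Pool.Agent.H434R2.PO p m (r - c)) : Cong p m r c := by
  constructor
  · have h1 : padicNorm p r ≤ 1 := by
      unfold Pool.Agent.H434R2.PO at h0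
      simpa using h0
    have h2 := Pool.Agent.H434R2.PO.den_of_norm h1
    exact (Nat.Prime.coprime_iff_not_dvd (Fact.out : p.Prime)).1 h2.symm
  · apply Q277.DC.PO_dvd
    have h3 := h.mul0' (Pool.Agent.H434R2.PO.of_nat (p := p) (r - c).den)
    have e : (r - c) * ((r - c).den : ℚ) = ((r - c).num : ℚ) := Rat.mul_den_eq_num _
    rw [e] at h3
    exact h3

theorem s_eq (n : ℕ) : s n = Q277.DC.s n := rfl

theorem t_eq (n : ℕ) : t n = Q277.DC.t n := rfl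

/-- All four items of the problem. -/
theorem result :
    (∀ n : ℕ, 1 ≤ n → (s n).den = 2 ^ (2 * padicValNat 2 n.factorial) ∧
      ((t n).den : ℚ) = (2 : ℚ) ^ (3 * ((n : ℤ) - 1 + padicValNat 2 n.factorial) - padicValNat 2 n)) ∧
    (∀ n : ℕ, 1 ≤ n → (Odd n → (s n).num ≡ 1 [ZMOD 12]) ∧ (Even n → (s n).num ≡ 7 [ZMOD 12])) ∧
    (∀ p : ℕ, p.Prime → p ≠ 2 → ∀ a : ℕ, 1 ≤ a → Cong p 1 (s (p ^ a)) 1 ∧ Cong p 1 (t (p ^ a)) 1) ∧
    (∀ a : ℕ, 1 ≤ a → Cong 3 2 (s (3 ^ a)) 4 ∧ Cong 3 5 (t (3 ^ a)) (-8)) := by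
  refine ⟨?_, ?_, ?_, ?_⟩
  · intro n hn
    obtain ⟨N, rfl⟩ : ∃ N, n = N + 1 := ⟨n - 1, by omega⟩
    refine ⟨Q277.DC.s_den N, ?_⟩
    rw [t_eq, Q277.DC.t_den N]
    obtain ⟨a, o, -, -, hv, hp⟩ := Q277.DC.nu_mono N
    have hv' : padicValNat 2 (N + 1).factorial = a + Q277.DC.nu N := hv
    have e : (3 * (((N + 1 : ℕ) : ℤ) - 1 + padicValNat 2 (N + 1).factorial) - padicValNat 2 (N + 1)) =
        ((3 * (N + Q277.DC.nu (N + 1)) - padicValNat 2 (N + 1) : ℕ) : ℤ) := by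
      rw [hp, hv', hv]
      omega
    rw [e, zpow_natCast]
    push_cast
    rfl
  · intro n hn
    obtain ⟨N, rfl⟩ : ∃ N, n = N + 1 := ⟨n - 1, by omega⟩
    constructor
    · intro h
      have hN : Even N := by
        rcases Nat.even_or_odd N with h' | h'
        · exact h'
        · exact absurd h (by rw [Nat.not_odd_iff_even]; exact h'.add_one)
      exact (Int.modEq_iff_dvd.2 (Q277.DC.s_num_odd N hN)).symm
    · intro h
      have hN : Odd N := by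
        rcases Nat.even_or_odd N with h' | h'
        · exact absurd h (by rw [Nat.not_even_iff_odd]; exact h'.add_one)
        · exact h'
      exact (Int.modEq_iff_dvd.2 (Q277.DC.s_num_even N hN)).symm
  · intro p hp h2 a ha
    have : Fact p.Prime := ⟨hp⟩
    obtain ⟨N, hN⟩ : ∃ N, p ^ a = N + 1 := ⟨p ^ a - 1, by have := Nat.pow_pos (n := a) hp.pos; omega⟩
    rw [hN]
    constructor
    · exact cong_of (Q277.DC.s_PO h2 N) (by exact_mod_cast Q277.DC.s_pa hN.symm h2)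
    · exact cong_of (Q277.DC.t_PO h2 N) (by exact_mod_cast Q277.DC.t_pa hN.symm h2)
  · intro a ha
    obtain ⟨N, hN⟩ : ∃ N, 3 ^ a = N + 1 := ⟨3 ^ a - 1, by have := Nat.pow_pos (n := a) (show 0 < 3 by norm_num); omega⟩
    rw [hN]
    constructor
    · refine cong_of (Q277.DC.s_PO (by norm_num) N) ?_
      have := Q277.DC.s_3a (by omega) hN.symm
      exact_mod_cast this
    · refine cong_of (Q277.DC.t_PO (by norm_num) N) ?_
      have := Q277.DC.t_3a (by omega) hN.symm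
      push_cast
      rw [sub_neg_eq_add]
      exact this

end Pool.Agent.Results.MP_dc1de5_nt.AllItems
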